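import Pool.Agent.helper20.LB.Defs

/-! LB project: heights and three close occurrences. -/

namespace Pool.Agent.helper20.LB

theorem exists_height {f : ℤ → ℤ} (hf : Step f) {D : ℤ} (hD : 1 ≤ D) :
    ∃ Ht : ℤ → ℤ, ∀ c, 0 ≤ Ht c ∧ Ht c ≤ D ∧ F f c (Ht c) ≤ 0 ∧
      (∀ r, Ht c < r → r ≤ D → 0 < F f c r) ∧ (Ht c < D → F f c (Ht c) = 0) := by
  have key : ∀ c : ℤ, ∃ H : ℤ, 0 ≤ H ∧ H ≤ D ∧ F f c H ≤ 0 ∧
      (∀ r, H < r → r ≤ D → 0 < F f c r) ∧ (H < D → F f c H = 0) := by
    intro c
    have hne : ((Finset.Icc (0 : ℤ) D).filter (fun r => F f c r ≤ 0)).Nonempty := by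
      refine ⟨0, ?_⟩
      simp only [Finset.mem_filter, Finset.mem_Icc]
      refine ⟨⟨le_refl _, by omega⟩, ?_⟩
      unfold F
      simp
      omega
    obtain ⟨H, hH, hmax⟩ := Finset.exists_max_image _ (fun r : ℤ => r) hne
    simp only [Finset.mem_filter, Finset.mem_Icc] at hH hmax
    obtain ⟨⟨h0, h1⟩, h2⟩ := hH
    have hpos : ∀ r, H < r → r ≤ D → 0 < F f c r := by
      intro r hr1 hr2
      by_contra hcon
      have := hmax r ⟨⟨by omega, hr2⟩, by omega⟩
      omega
    refine ⟨H, h0, h1, h2, hpos, ?_⟩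
    intro hlt
    have h3 := hpos (H + 1) (by omega) (by omega)
    have h4 := hf (c + H)
    have h5 := hf (c - (H + 1))
    unfold F at h2 h3 ⊢
    have e1 : c + (H + 1) = c + H + 1 := by ring
    have e2 : c - (H + 1) + 1 = c - H := by ring
    rw [e1] at h3
    rw [e2] at h5
    omega
  choose Ht hHt using key
  exact ⟨Ht, hHt⟩

theorem height_adj {f : ℤ → ℤ} (hf : Step f) {D : ℤ} (hD : 1 ≤ D) {Ht : ℤ → ℤ}
    (hHt : ∀ c, 0 ≤ Ht c ∧ Ht c ≤ D ∧ F f c (Ht c) ≤ 0 ∧
      (∀ r, Ht c < r → r ≤ D → 0 < F f c r) ∧ (Ht c < D → F f c (Ht c) = 0)) (c : ℤ) :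
    1 ≤ Ht c ∨ 1 ≤ Ht (c + 1) := by
  by_contra hcon
  push Not at hcon
  obtain ⟨h1, h2⟩ := hcon
  have h3 := (hHt c).2.2.2.1 1 (by omega) hD
  have h4 := (hHt (c + 1)).2.2.2.1 1 (by omega) hD
  unfold F at h3 h4
  have e1 : c + 1 - 1 = c := by ring
  rw [e1] at h4
  have h5 := hf (c + 1)
  have h6 := hf (c - 1)
  have h7 := hf c
  have e2 : c - 1 + 1 = c := by ring
  rw [e2] at h6
  omega

/-- downward chain: if `f u - f (u-p) = q` on `[a,y]` and `y - (i-1) p ≥ a`, then
`f (y - i p) = f y - i q`. -/
private theorem chain_down' {f : ℤ → ℤ} {y p q a : ℤ} (hp : 0 < p)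
    (hg : ∀ u, a ≤ u → u ≤ y → f u - f (u - p) = q) :
    ∀ i : ℕ, a ≤ y - i * p → f (y - (i + 1) * p) = f y - (i + 1) * q := by
  intro i
  induction i with
  | zero =>
      intro hle
      have h2 := hg y (by push_cast at hle; linarith) (le_refl _)
      have e : y - ((0 : ℕ) + 1 : ℤ) * p = y - p := by push_cast; ring
      rw [e]
      push_cast
      linarith
  | succ n ih =>
      intro hle
      push_cast at hle ⊢
      have hn : (0 : ℤ) ≤ n := by positivity
      have hnp : 0 ≤ (n : ℤ) * p := by positivity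
      have h1 := ih (by nlinarith)
      have h2 := hg (y - ((n : ℤ) + 1) * p) (by linarith) (by nlinarith)
      have e : y - ((n : ℤ) + 1 + 1) * p = y - (n + 1) * p - p := by ring
      rw [e]
      rw [h1] at h2
      linarith

private theorem chain_up' {f : ℤ → ℤ} {y p q b : ℤ} (hp : 0 < p)
    (hg : ∀ u, y ≤ u → u ≤ b → f (u + p) - f u = q) :
    ∀ i : ℕ, y + i * p ≤ b → f (y + (i + 1) * p) = f y + (i + 1) * q := by
  intro i
  induction i with
  | zero =>
      intro hle
      have h2 := hg y (le_refl _) (by push_cast at hle; linarith)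
      have e : y + ((0 : ℕ) + 1 : ℤ) * p = y + p := by push_cast; ring
      rw [e]
      push_cast
      linarith
  | succ n ih =>
      intro hle
      push_cast at hle ⊢
      have hn : (0 : ℤ) ≤ n := by positivity
      have hnp : 0 ≤ (n : ℤ) * p := by positivity
      have h1 := ih (by nlinarith)
      have h2 := hg (y + ((n : ℤ) + 1) * p) (by nlinarith) (by linarith)
      have e : y + ((n : ℤ) + 1 + 1) * p = y + (n + 1) * p + p := by ring
      rw [e]
      rw [h1] at h2
      linarith

theorem three_occ {f : ℤ → ℤ} (hf : Step f) {h p1 p2 y : ℤ} (hp1 : 0 < p1) (hp2 : 0 < p2)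
    (h1 : p1 ≤ h) (h2 : p2 ≤ h)
    (e1 : ∀ j, -h ≤ j → j ≤ h → f (y - p1 + j) - f (y - p1) = f (y + j) - f y)
    (e2 : ∀ j, -h ≤ j → j ≤ h → f (y + p2 + j) - f (y + p2) = f (y + j) - f y) :
    ∃ R, h < R ∧ R ≤ 2 * h ∧ F f y R = 0 := by
  have _ := hf
  rcases le_total p1 p2 with hle | hle
  · -- period p1
    set q := f y - f (y - p1) with hq
    set c := f (y + p2) - f y with hc
    have g1 : ∀ u, y - h ≤ u → u ≤ y + h → f u - f (u - p1) = q := by
      intro u hu1 hu2
      have := e1 (u - y) (by linarith) (by linarith)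
      have a1 : y - p1 + (u - y) = u - p1 := by ring
      have a2 : y + (u - y) = u := by ring
      rw [a1, a2] at this
      linarith
    have g2 : ∀ u, y - h ≤ u → u ≤ y + h → f (u + p2) = f u + c := by
      intro u hu1 hu2
      have := e2 (u - y) (by linarith) (by linarith)
      have a1 : y + p2 + (u - y) = u + p2 := by ring
      have a2 : y + (u - y) = u := by ring
      rw [a1, a2] at this
      linarith
    have g3 : ∀ u, y - h ≤ u → u ≤ y + h + p1 → f u - f (u - p1) = q := by
      intro u hu1 hu2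
      rcases le_or_gt u (y + h) with hu | hu
      · exact g1 u hu1 hu
      · have b1 := g2 (u - p2) (by linarith) (by linarith)
        have b2 := g2 (u - p1 - p2) (by linarith) (by linarith)
        have a1 : u - p2 + p2 = u := by ring
        have a2 : u - p1 - p2 + p2 = u - p1 := by ring
        rw [a1] at b1
        rw [a2] at b2
        have b3 := g1 (u - p2) (by linarith) (by linarith)
        have a3 : u - p2 - p1 = u - p1 - p2 := by ring
        rw [a3] at b3
        linarith
    -- j = h / p1
    have hj0 : 0 ≤ h / p1 := Int.ediv_nonneg (by linarith) (by linarith)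
    obtain ⟨j, hj⟩ := Int.eq_ofNat_of_zero_le hj0
    have hmod := Int.mul_ediv_add_emod h p1
    have hm1 := Int.emod_nonneg h (by linarith : p1 ≠ 0)
    have hm2 := Int.emod_lt_of_pos h hp1
    rw [hj] at hmod
    have hjh : (j : ℤ) * p1 ≤ h := by nlinarith
    have hjh2 : h < ((j : ℤ) + 1) * p1 := by nlinarith
    refine ⟨((j : ℤ) + 1) * p1, hjh2, by nlinarith, ?_⟩
    have c1 := chain_down' (f := f) (y := y) (p := p1) (q := q) (a := y - h) hp1
      (fun u hu1 hu2 => g3 u hu1 (by linarith)) j (by linarith)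
    have c2 := chain_up' (f := f) (y := y) (p := p1) (q := q) (b := y + h) hp1
      (fun u hu1 hu2 => by
        have := g3 (u + p1) (by linarith) (by linarith)
        have a : u + p1 - p1 = u := by ring
        rw [a] at this
        exact this) j (by linarith)
    unfold F
    rw [c1, c2]
    ring
  · -- period p2
    set q := f (y + p2) - f y with hq
    set c := f y - f (y - p1) with hc
    have g1 : ∀ u, y - h ≤ u → u ≤ y + h → f (u + p2) - f u = q := by
      intro u hu1 hu2
      have := e2 (u - y) (by linarith) (by linarith)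
      have a1 : y + p2 + (u - y) = u + p2 := by ring
      have a2 : y + (u - y) = u := by ring
      rw [a1, a2] at this
      linarith
    have g2 : ∀ u, y - h ≤ u → u ≤ y + h → f (u - p1) = f u - c := by
      intro u hu1 hu2
      have := e1 (u - y) (by linarith) (by linarith)
      have a1 : y - p1 + (u - y) = u - p1 := by ring
      have a2 : y + (u - y) = u := by ring
      rw [a1, a2] at this
      linarith
    have g3 : ∀ u, y - h - p2 ≤ u → u ≤ y + h → f (u + p2) - f u = q := by
      intro u hu1 hu2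
      rcases le_or_gt (y - h) u with hu | hu
      · exact g1 u hu hu2
      · have b1 := g2 (u + p1) (by linarith) (by linarith)
        have b2 := g2 (u + p2 + p1) (by linarith) (by linarith)
        have a1 : u + p1 - p1 = u := by ring
        have a2 : u + p2 + p1 - p1 = u + p2 := by ring
        rw [a1] at b1
        rw [a2] at b2
        have b3 := g1 (u + p1) (by linarith) (by linarith)
        have a3 : u + p1 + p2 = u + p2 + p1 := by ring
        rw [a3] at b3
        linarith
    have hj0 : 0 ≤ h / p2 := Int.ediv_nonneg (by linarith) (by linarith)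
    obtain ⟨j, hj⟩ := Int.eq_ofNat_of_zero_le hj0
    have hmod := Int.mul_ediv_add_emod h p2
    have hm1 := Int.emod_nonneg h (by linarith : p2 ≠ 0)
    have hm2 := Int.emod_lt_of_pos h hp2
    rw [hj] at hmod
    have hjh : (j : ℤ) * p2 ≤ h := by nlinarith
    have hjh2 : h < ((j : ℤ) + 1) * p2 := by nlinarith
    refine ⟨((j : ℤ) + 1) * p2, hjh2, by nlinarith, ?_⟩
    have c1 := chain_down' (f := f) (y := y) (p := p2) (q := q) (a := y - h) hp2
      (fun u hu1 hu2 => by
        have := g3 (u - p2) (by linarith) (by linarith)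
        have a : u - p2 + p2 = u := by ring
        rw [a] at this
        exact this) j (by linarith)
    have c2 := chain_up' (f := f) (y := y) (p := p2) (q := q) (b := y + h) hp2
      (fun u hu1 hu2 => g3 u (by linarith) hu2) j (by linarith)
    unfold F
    rw [c1, c2]
    ring

end Pool.Agent.helper20.LB
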