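import Pool.Agent.helper20.LB.Defs

/-! LB project: selection of dense windows. -/

namespace Pool.Agent.helper20.LB

/-- greedy selection -/
private theorem greedy : ∀ (n : ℕ) (J : Finset (ℤ × ℤ)), J.card = n → (∀ s ∈ J, 1 ≤ s.2) →
    ∃ S : Finset (ℤ × ℤ), S ⊆ J ∧
      (∀ s ∈ S, ∀ t ∈ S, s ≠ t → 18 * (s.2 + t.2) < |s.1 - t.1|) ∧
      (∀ s ∈ J, ∃ t ∈ S, s.2 ≤ t.2 ∧ |s.1 - t.1| ≤ 18 * (s.2 + t.2)) := by
  intro n
  induction n using Nat.strong_induction_on with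
  | _ n ih =>
    intro J hJ h1
    rcases J.eq_empty_or_nonempty with rfl | hne
    · exact ⟨∅, by simp, by simp, by simp⟩
    obtain ⟨s, hs, hmax⟩ := Finset.exists_max_image J (fun t => t.2) hne
    set J' := J.filter (fun t => 18 * (t.2 + s.2) < |t.1 - s.1|) with hJ'
    have hss : s ∉ J' := by
      intro h
      rw [hJ', Finset.mem_filter] at h
      have h2 := h.2
      have h3 := h1 s hs
      rw [sub_self, abs_zero] at h2
      omega
    have hcard : J'.card < n := by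
      rw [← hJ]
      refine Finset.card_lt_card ?_
      rw [Finset.ssubset_iff_of_subset (Finset.filter_subset _ _)]
      exact ⟨s, hs, hss⟩
    obtain ⟨S, hS1, hS2, hS3⟩ := ih J'.card hcard J' rfl
      (fun t ht => h1 t (Finset.mem_of_mem_filter t ht))
    refine ⟨insert s S, ?_, ?_, ?_⟩
    · intro t ht
      rcases Finset.mem_insert.1 ht with rfl | ht
      · exact hs
      · exact Finset.mem_of_mem_filter t (hS1 ht)
    · intro a ha b hb hab
      rcases Finset.mem_insert.1 ha with ea | ha'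
      · rcases Finset.mem_insert.1 hb with eb | hb'
        · exact absurd (ea.trans eb.symm) hab
        · have := (Finset.mem_filter.1 (hS1 hb')).2
          rw [ea, abs_sub_comm]
          linarith
      · rcases Finset.mem_insert.1 hb with eb | hb'
        · rw [eb]
          exact (Finset.mem_filter.1 (hS1 ha')).2
        · exact hS2 a ha' b hb' hab
    · intro t ht
      by_cases hc : 18 * (t.2 + s.2) < |t.1 - s.1|
      · obtain ⟨r, hr, hr2, hr3⟩ := hS3 t (Finset.mem_filter.2 ⟨ht, hc⟩)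
        exact ⟨r, Finset.mem_insert_of_mem hr, hr2, hr3⟩
      · exact ⟨s, Finset.mem_insert_self _ _, hmax t ht, not_lt.1 hc⟩

private theorem dense_one {Ht : ℤ → ℤ} {c : ℤ} (h : 1 ≤ Ht c) : Dense Ht c 1 := by
  unfold Dense
  have : (Finset.Icc c (c + 1 - 1)).filter (fun t => 1 ≤ Ht t) = {c} := by
    ext t
    simp only [Finset.mem_filter, Finset.mem_Icc, Finset.mem_singleton]
    constructor
    · rintro ⟨⟨h1, h2⟩, _⟩
      omega
    · rintro rfl
      exact ⟨⟨le_refl _, by omega⟩, h⟩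
  rw [this]
  simp

theorem select (Ht : ℤ → ℤ) {a b : ℤ} (hab : a < b)
    (hadj : ∀ c, a ≤ c → c < b → 1 ≤ Ht c ∨ 1 ≤ Ht (c + 1)) :
    ∃ S : Finset (ℤ × ℤ),
      (∀ s ∈ S, 1 ≤ s.2 ∧ a ≤ s.1 ∧ s.1 + s.2 - 1 ≤ b ∧ Dense Ht s.1 s.2) ∧
      (∀ s ∈ S, ∀ u m, 1 ≤ m → a ≤ u → u + m - 1 ≤ b → Dense Ht u m →
        128 * m ≤ 128 * s.2 + |u - s.1|) ∧
      (∀ s ∈ S, ∀ t ∈ S, s ≠ t → 18 * (s.2 + t.2) < |s.1 - t.1|) ∧
      b - a + 1 ≤ 329 * ∑ s ∈ S, s.2 := by
  classical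
  -- all dense windows
  set W : Finset (ℤ × ℤ) := (Finset.Icc a b ×ˢ Finset.Icc 1 (b - a + 1)).filter
    (fun s => s.1 + s.2 - 1 ≤ b ∧ Dense Ht s.1 s.2) with hW
  have memW : ∀ u m, (u, m) ∈ W ↔ (1 ≤ m ∧ a ≤ u ∧ u + m - 1 ≤ b ∧ Dense Ht u m) := by
    intro u m
    rw [hW, Finset.mem_filter, Finset.mem_product, Finset.mem_Icc, Finset.mem_Icc]
    constructor
    · rintro ⟨⟨⟨h1, h2⟩, h3, h4⟩, h5, h6⟩
      exact ⟨h3, h1, h5, h6⟩
    · rintro ⟨h3, h1, h5, h6⟩
      refine ⟨⟨⟨h1, ?_⟩, h3, ?_⟩, h5, h6⟩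
      · show u ≤ b
        omega
      · show m ≤ b - a + 1
        omega
  have near : ∀ c, a ≤ c → c ≤ b → ∃ u, (u, (1 : ℤ)) ∈ W ∧ |c - u| ≤ 1 := by
    intro c hc1 hc2
    rcases lt_or_eq_of_le hc2 with hc | hc
    · rcases hadj c hc1 hc with h | h
      · exact ⟨c, (memW _ _).2 ⟨le_refl _, hc1, by omega, dense_one h⟩, by simp⟩
      · refine ⟨c + 1, (memW _ _).2 ⟨le_refl _, by omega, by omega, dense_one h⟩, ?_⟩
        have : c - (c + 1) = -1 := by ring
        rw [this]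
        simp
    · rcases hadj (b - 1) (by omega) (by omega) with h | h
      · refine ⟨b - 1, (memW _ _).2 ⟨le_refl _, by omega, by omega, dense_one h⟩, ?_⟩
        rw [hc]
        have : b - (b - 1) = 1 := by ring
        rw [this]
        simp
      · have e : b - 1 + 1 = b := by ring
        rw [e] at h
        refine ⟨b, (memW _ _).2 ⟨le_refl _, by omega, by omega, dense_one h⟩, ?_⟩
        rw [hc]
        simp
  have best : ∀ c : ℤ, ∃ s : ℤ × ℤ, a ≤ c → c ≤ b → s ∈ W ∧ 127 ≤ 128 * s.2 - |c - s.1| ∧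
      ∀ t ∈ W, 128 * t.2 - |c - t.1| ≤ 128 * s.2 - |c - s.1| := by
    intro c
    by_cases hc : a ≤ c ∧ c ≤ b
    · obtain ⟨u, hu, hu2⟩ := near c hc.1 hc.2
      obtain ⟨s, hs, hmax⟩ := Finset.exists_max_image W (fun t => 128 * t.2 - |c - t.1|) ⟨_, hu⟩
      refine ⟨s, fun _ _ => ⟨hs, ?_, hmax⟩⟩
      have := hmax _ hu
      simp only at this
      linarith
    · exact ⟨(0, 0), fun h1 h2 => absurd ⟨h1, h2⟩ hc⟩
  choose g hg using best
  set J : Finset (ℤ × ℤ) := (Finset.Icc a b).image g with hJ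
  have hJmem : ∀ s ∈ J, ∃ c, a ≤ c ∧ c ≤ b ∧ g c = s := by
    intro s hs
    obtain ⟨c, hc, hcs⟩ := Finset.mem_image.1 hs
    rw [Finset.mem_Icc] at hc
    exact ⟨c, hc.1, hc.2, hcs⟩
  have hJW : ∀ s ∈ J, 1 ≤ s.2 ∧ a ≤ s.1 ∧ s.1 + s.2 - 1 ≤ b ∧ Dense Ht s.1 s.2 := by
    intro s hs
    obtain ⟨c, hc1, hc2, rfl⟩ := hJmem s hs
    exact (memW _ _).1 (hg c hc1 hc2).1
  obtain ⟨S, hSJ, hsep, hcov⟩ := greedy J.card J rfl (fun s hs => (hJW s hs).1)
  refine ⟨S, fun s hs => hJW s (hSJ hs), ?_, hsep, ?_⟩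
  · intro s hs u m hm hu hum hd
    obtain ⟨c, hc1, hc2, rfl⟩ := hJmem s (hSJ hs)
    have h1 := (hg c hc1 hc2).2.2 (u, m) ((memW _ _).2 ⟨hm, hu, hum, hd⟩)
    simp only at h1
    have h2 : |c - u| ≤ |c - (g c).1| + |u - (g c).1| := by
      have := abs_sub_le c (g c).1 u
      rw [abs_sub_comm (g c).1 u] at this
      exact this
    linarith
  · -- covering
    have hsub : Finset.Icc a b ⊆ S.biUnion (fun s => Finset.Icc (s.1 - (164 * s.2 - 127))
        (s.1 + (164 * s.2 - 127))) := by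
      intro c hc
      rw [Finset.mem_Icc] at hc
      have hgc := hg c hc.1 hc.2
      have hgJ : g c ∈ J := Finset.mem_image_of_mem g (Finset.mem_Icc.2 hc)
      obtain ⟨t, ht, ht2, ht3⟩ := hcov (g c) hgJ
      rw [Finset.mem_biUnion]
      refine ⟨t, ht, ?_⟩
      rw [Finset.mem_Icc]
      have h1 := hgc.2.1
      have h2 := abs_le.1 ht3
      have h3 : |c - (g c).1| ≤ 128 * (g c).2 - 127 := by linarith
      have h4 := abs_le.1 h3
      constructor <;> linarith [h2.1, h2.2, h4.1, h4.2]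
    have hc1 := Finset.card_le_card hsub
    have hc2 := Finset.card_biUnion_le (s := S) (t := fun s => Finset.Icc (s.1 - (164 * s.2 - 127))
        (s.1 + (164 * s.2 - 127)))
    have hc3 : ∀ s ∈ S, ((Finset.Icc (s.1 - (164 * s.2 - 127))
        (s.1 + (164 * s.2 - 127))).card : ℤ) ≤ 329 * s.2 := by
      intro s hs
      have h1 := (hJW s (hSJ hs)).1
      rw [Int.card_Icc]
      rw [Int.toNat_of_nonneg (by linarith)]
      linarith
    have hc4 : ((Finset.Icc a b).card : ℤ) = b - a + 1 := by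
      rw [Int.card_Icc, Int.toNat_of_nonneg (by linarith)]
      ring
    rw [← hc4, Finset.mul_sum]
    calc ((Finset.Icc a b).card : ℤ) ≤ ((∑ s ∈ S, (Finset.Icc (s.1 - (164 * s.2 - 127))
        (s.1 + (164 * s.2 - 127))).card : ℕ) : ℤ) := by exact_mod_cast hc1.trans hc2
      _ = ∑ s ∈ S, ((Finset.Icc (s.1 - (164 * s.2 - 127))
        (s.1 + (164 * s.2 - 127))).card : ℤ) := by push_cast; rfl
      _ ≤ ∑ s ∈ S, 329 * s.2 := Finset.sum_le_sum hc3

end Pool.Agent.helper20.LB
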